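import Mathlib
import Pool.Agent.Lib.helper21.HopfLN

open scoped ContDiff

namespace Pool.Agent.Results.MP_a60953_an.Counter

/-- The domain for `n = 2`: points `(t, y)` with `0 < t < 1`, `|y| < 1`. -/
def Omega : Set (ℝ × ℝ) := {p | 0 < p.1 ∧ p.1 < 1 ∧ |p.2| < 1}

/-- The partial derivative in `t`. -/
noncomputable def dt (w : ℝ × ℝ → ℝ) (p : ℝ × ℝ) : ℝ := deriv (fun s => w (s, p.2)) p.1

/-- The Laplacian in `(t, y)`. -/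
noncomputable def lap (w : ℝ × ℝ → ℝ) (p : ℝ × ℝ) : ℝ :=
  iteratedDeriv 2 (fun s => w (s, p.2)) p.1 + iteratedDeriv 2 (fun z => w (p.1, z)) p.2

theorem result : ∃ u v : ℝ × ℝ → ℝ, ContDiff ℝ ∞ u ∧ ContDiff ℝ ∞ v ∧
    (∀ p ∈ Omega, v p ≤ u p) ∧
    (∀ p ∈ Omega, 0 < u p ∧ 0 < v p ∧ 0 < dt u p) ∧
    (∀ y, |y| < 1 → u (0, y) = 0) ∧
    (∀ t s y, 0 < t → t ≤ s → s < 1 → |y| < 1 → u (t, y) = v (s, y) → lap u (t, y) ≤ lap v (s, y)) ∧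
    dt u (0, 0) = 0 ∧
    (∀ p ∈ Omega, v p < u p) := by
  obtain ⟨u, v, h1, h2, h3, h4, h5, h6, h7, h8, h9⟩ := Pool.Agent.Lib.Helper21.HopfLN.main
  exact ⟨u, v, h1.of_le le_top, h2.of_le le_top, fun p hp => (h3 p.1 p.2 hp.1).le, fun p hp => h4 p.1 p.2 hp.1,
    fun y _ => h5 y, fun t s y ht hts _ _ h => h6 t s y ht hts h, h7, fun p hp => h3 p.1 p.2 hp.1⟩

end Pool.Agent.Results.MP_a60953_an.Counter
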